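import Mathlib
import Pool.Agent.Q25.PLP.Top

/-!
# Log-concavity ratios of Whitney numbers: `k = 2` and `k = rank - 1`

In particular the conjecture holds for all matroids of rank at most four.
-/

set_option autoImplicit false

namespace Pool.Agent.Results.MP_42e384_co.RankFour

/-- Mason's inequality `k (n - k) W_k ^ 2 ≥ (k + 1) (n - k + 1) W_{k-1} W_{k+1}` for every finite
matroid of rank at least `k + 1`, if `k = 2` or if the rank is `k + 1`. -/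
theorem result {α : Type*} (M : Matroid α) [M.Finite] (k : ℕ) (hk : 2 ≤ k)
    (hr : ((k + 1 : ℕ) : ℕ∞) ≤ M.eRank) (hk2 : k = 2 ∨ M.eRank = ((k + 1 : ℕ) : ℕ∞)) :
    ((k : ℝ) + 1) * (({F : Set α | M.IsFlat F ∧ M.eRk F = (1 : ℕ∞)}.ncard : ℝ) - k + 1) *
        ({F : Set α | M.IsFlat F ∧ M.eRk F = ((k - 1 : ℕ) : ℕ∞)}.ncard : ℝ) *
        ({F : Set α | M.IsFlat F ∧ M.eRk F = ((k + 1 : ℕ) : ℕ∞)}.ncard : ℝ) ≤
      (k : ℝ) * (({F : Set α | M.IsFlat F ∧ M.eRk F = (1 : ℕ∞)}.ncard : ℝ) - k) *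
        ({F : Set α | M.IsFlat F ∧ M.eRk F = ((k : ℕ) : ℕ∞)}.ncard : ℝ) ^ 2 :=
  Pool.Agent.Q25.PLPG.two_ends M Pool.Agent.Q25.PLP.fin_true Pool.Agent.Q25.PLP.m1_true k hk hr hk2

end Pool.Agent.Results.MP_42e384_co.RankFour
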